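import Mathlib

/-! Task 24 (for MP_f07f0f_pr, helper97): renewal bound (T6) and a Levy zero-one lemma (T7). -/

namespace Pool.Agent.Helper86.Speed

open MeasureTheory Filter Topology ENNReal

/-- T6: a renewal sequence whose partial sums grow linearly comes from a proper law with finite
mean. -/
theorem renewal_bound (f u : ℕ → ℝ) (hf0 : f 0 = 0) (hf : ∀ k, 0 ≤ f k)
    (hsum : ∀ n, ∑ k ∈ Finset.range n, f k ≤ 1) (hu0 : u 0 = 1)
    (hu : ∀ n, 1 ≤ n → u n = ∑ k ∈ Finset.Icc 1 n, f k * u (n - k)) (c C : ℝ) (hc : 0 < c)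
    (hlow : ∀ n : ℕ, c * n - C ≤ ∑ k ∈ Finset.Icc 1 n, u k) :
    HasSum f 1 ∧ Summable (fun k : ℕ => (k : ℝ) * f k) := by
  classical
  -- nonnegativity of u
  have hupos : ∀ n, 0 ≤ u n := by
    intro n
    induction n using Nat.strong_induction_on with
    | _ n ih =>
      rcases Nat.eq_zero_or_pos n with h0 | h0
      · rw [h0, hu0]; exact zero_le_one
      · rw [hu n h0]
        refine Finset.sum_nonneg (fun k hk => ?_)
        rw [Finset.mem_Icc] at hk
        exact mul_nonneg (hf k) (ih (n - k) (by omega))
  -- tails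
  set q : ℕ → ℝ := fun m => 1 - ∑ k ∈ Finset.range (m + 1), f k with hq
  have hqnn : ∀ m, 0 ≤ q m := fun m => by
    have := hsum (m + 1)
    simp only [hq]; linarith
  have hq0 : q 0 = 1 := by simp [hq, hf0]
  have hqs : ∀ m, q (m + 1) = q m - f (m + 1) := by
    intro m
    simp only [hq]
    rw [Finset.sum_range_succ _ (m + 1)]
    ring
  have hqanti : ∀ m, q (m + 1) ≤ q m := fun m => by
    rw [hqs]; linarith [hf (m + 1)]
  -- renewal identity
  have hA : ∀ n, ∑ k ∈ Finset.range (n + 1), u k * q (n - k) = 1 := by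
    intro n
    induction n with
    | zero => simp [hu0, hq0]
    | succ n ih =>
      rw [Finset.sum_range_succ, Nat.sub_self, hq0, mul_one]
      have h1 : ∑ k ∈ Finset.range (n + 1), u k * q (n + 1 - k) =
          ∑ k ∈ Finset.range (n + 1), u k * q (n - k) -
            ∑ k ∈ Finset.range (n + 1), u k * f (n + 1 - k) := by
        rw [← Finset.sum_sub_distrib]
        refine Finset.sum_congr rfl (fun k hk => ?_)
        rw [Finset.mem_range] at hk
        have : n + 1 - k = (n - k) + 1 := by omega
        rw [this, hqs]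
        ring
      have h2 : u (n + 1) = ∑ k ∈ Finset.range (n + 1), u k * f (n + 1 - k) := by
        rw [hu (n + 1) (by omega)]
        have h3 : ∑ k ∈ Finset.range (n + 1), u k * f (n + 1 - k) =
            ∑ k ∈ Finset.range (n + 1), u (n + 1 - 1 - k) * f (n + 1 - (n + 1 - 1 - k)) :=
          (Finset.sum_range_reflect (fun k => u k * f (n + 1 - k)) (n + 1)).symm
        rw [h3, Finset.range_eq_Ico, ← Finset.Ico_succ_right_eq_Icc]
        have h4 := Finset.sum_Ico_add' (fun k => f k * u (n + 1 - k)) 0 (n + 1) 1
        simp only [zero_add] at h4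
        have h5 : Order.succ (n + 1) = n + 1 + 1 := rfl
        rw [h5, ← h4]
        refine Finset.sum_congr rfl (fun k hk => ?_)
        rw [Finset.mem_Ico] at hk
        have e1 : n + 1 - (k + 1) = n + 1 - 1 - k := by omega
        have e2 : n + 1 - (n + 1 - 1 - k) = k + 1 := by omega
        rw [e1, e2, mul_comm]
      rw [h1, ih, h2]
      ring
  set Q : ℕ → ℝ := fun m => ∑ j ∈ Finset.range (m + 1), q j with hQ
  have hQs : ∀ m, Q (m + 1) = Q m + q (m + 1) := fun m => by
    simp only [hQ]; rw [Finset.sum_range_succ _ (m + 1)]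
  have hQ0 : Q 0 = 1 := by simp [hQ, hq0]
  have hQmono : Monotone Q := by
    refine monotone_nat_of_le_succ (fun m => ?_)
    rw [hQs]; linarith [hqnn (m + 1)]
  have hQnn : ∀ m, 0 ≤ Q m := fun m => Finset.sum_nonneg (fun j _ => hqnn j)
  have hB : ∀ N, ∑ k ∈ Finset.range (N + 1), u k * Q (N - k) = N + 1 := by
    intro N
    induction N with
    | zero => simp [hu0, hQ0]
    | succ N ih =>
      have h1 := hA (N + 1)
      rw [Finset.sum_range_succ, Nat.sub_self, hQ0]
      rw [Finset.sum_range_succ, Nat.sub_self, hq0] at h1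
      have h2 : ∑ k ∈ Finset.range (N + 1), u k * Q (N + 1 - k) =
          ∑ k ∈ Finset.range (N + 1), u k * Q (N - k) +
            ∑ k ∈ Finset.range (N + 1), u k * q (N + 1 - k) := by
        rw [← Finset.sum_add_distrib]
        refine Finset.sum_congr rfl (fun k hk => ?_)
        rw [Finset.mem_range] at hk
        have : N + 1 - k = (N - k) + 1 := by omega
        rw [this, hQs]
        ring
      rw [h2, ih]
      push_cast
      linarith
  -- the bound Q M ≤ 1 / c
  have hQb : ∀ M, Q M ≤ 1 / c := by
    intro M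
    by_contra hcon
    push Not at hcon
    have hM : 1 < Q M * c := by
      rw [div_lt_iff₀ hc] at hcon
      exact hcon
    have key : ∀ n : ℕ, Q M * (c * n - C) ≤ M + n + 1 := by
      intro n
      have h1 : ∑ k ∈ Finset.Icc 1 n, u k * Q M ≤
          ∑ k ∈ Finset.range (M + n + 1), u k * Q (M + n - k) := by
        have h2 : Finset.Icc 1 n ⊆ Finset.range (M + n + 1) := by
          intro k hk
          rw [Finset.mem_Icc] at hk
          rw [Finset.mem_range]; omega
        refine le_trans (Finset.sum_le_sum (g := fun k => u k * Q (M + n - k)) ?_)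
          (Finset.sum_le_sum_of_subset_of_nonneg h2 ?_)
        · intro k hk
          rw [Finset.mem_Icc] at hk
          exact mul_le_mul_of_nonneg_left (hQmono (by omega)) (hupos k)
        · intro k _ _
          exact mul_nonneg (hupos k) (hQnn _)
      rw [hB (M + n), ← Finset.sum_mul] at h1
      have h3 := mul_le_mul_of_nonneg_right (hlow n) (hQnn M)
      push_cast at h1
      linarith [mul_comm (Q M) (c * n - C)]
    obtain ⟨n, hn⟩ := exists_nat_gt ((M + 1 + Q M * C) / (Q M * c - 1))
    have hpos : 0 < Q M * c - 1 := by linarith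
    rw [div_lt_iff₀ hpos] at hn
    have := key n
    nlinarith
  -- q is summable
  have hqsum : Summable q := by
    refine summable_of_sum_range_le (c := 1 / c) hqnn (fun n => ?_)
    rcases n with _ | n
    · simp only [Finset.range_zero, Finset.sum_empty]
      positivity
    · exact hQb n
  have hq_tendsto : Tendsto q atTop (𝓝 0) := hqsum.tendsto_atTop_zero
  constructor
  · rw [hasSum_iff_tendsto_nat_of_nonneg hf]
    have h1 : Tendsto (fun m => 1 - q m) atTop (𝓝 (1 - 0)) := hq_tendsto.const_sub 1
    rw [sub_zero] at h1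
    have h2 : (fun m => 1 - q m) = fun m => ∑ k ∈ Finset.range (m + 1), f k := by
      funext m
      simp only [hq]
      ring
    rw [h2] at h1
    exact (tendsto_add_atTop_iff_nat 1).1 h1
  · have hW : ∀ m, ∑ k ∈ Finset.range (m + 1), (k : ℝ) * f k + (m + 1) * q m = Q m := by
      intro m
      induction m with
      | zero => simp [hQ0, hq0]
      | succ m ih =>
        rw [Finset.sum_range_succ, hQs, ← ih]
        have := hqs m
        have hf' : f (m + 1) = q m - q (m + 1) := by linarith
        rw [hf']
        push_cast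
        ring
    refine summable_of_sum_range_le (c := 1 / c)
      (fun k => mul_nonneg (Nat.cast_nonneg k) (hf k)) (fun n => ?_)
    rcases n with _ | n
    · simp only [Finset.range_zero, Finset.sum_empty]
      positivity
    · have h1 := hW n
      have h2 := hQb n
      have h3 : 0 ≤ ((n : ℝ) + 1) * q n := mul_nonneg (by positivity) (hqnn n)
      linarith

/-- T7: if every event of every stage of a filtration leaves probability at least `c` for `G`, with
`G` measurable for the limit sigma-algebra, then `G` has full probability. -/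
theorem levy_full {Ω : Type*} {m0 : MeasurableSpace Ω} (μ : Measure Ω) [IsProbabilityMeasure μ]
    (ℱ : Filtration ℕ m0) (G : Set Ω) (hG : MeasurableSet[⨆ n, ℱ n] G) (c : ℝ≥0∞) (hc : c ≠ 0)
    (h : ∀ n C, MeasurableSet[ℱ n] C → c * μ C ≤ μ (G ∩ C)) : μ Gᶜ = 0 := by
  classical
  have hle : (⨆ n, ℱ n) ≤ m0 := iSup_le (fun n => ℱ.le n)
  have hGm : MeasurableSet[m0] G := hle G hG
  set c' : ℝ := (min c 1).toReal with hc'def
  have hmin_ne_top : min c 1 ≠ ∞ := ne_top_of_le_ne_top one_ne_top (min_le_right _ _)
  have hc' : 0 < c' := by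
    refine ENNReal.toReal_pos ?_ hmin_ne_top
    intro h0
    rcases le_total c 1 with h1 | h1
    · rw [min_eq_left h1] at h0; exact hc h0
    · rw [min_eq_right h1] at h0; exact one_ne_zero h0
  set g : Ω → ℝ := G.indicator (fun _ => (1 : ℝ)) with hg
  have hgint : Integrable g μ := (integrable_const 1).indicator hGm
  have h1 : ∀ n, ∀ᵐ x ∂μ, c' ≤ (μ[g|ℱ n]) x := by
    intro n
    have hmeas : StronglyMeasurable[ℱ n] (μ[g|ℱ n]) := stronglyMeasurable_condExp
    refine ae_le_of_ae_le_trim (hm := ℱ.le n) (f₁ := fun _ => c') ?_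
    refine ae_le_of_forall_setIntegral_le (integrable_const c')
      (integrable_condExp.trim (ℱ.le n) hmeas) ?_
    intro s hs _
    rw [← setIntegral_trim (ℱ.le n) stronglyMeasurable_const hs,
      ← setIntegral_trim (ℱ.le n) hmeas hs, setIntegral_condExp (ℱ.le n) hgint hs]
    have hs0 : MeasurableSet[m0] s := ℱ.le n s hs
    rw [setIntegral_const, hg, setIntegral_indicator hGm, setIntegral_const]
    simp only [smul_eq_mul, mul_one]
    have h2 := h n s hs
    have h3 : min c 1 * μ s ≤ μ (s ∩ G) := by
      rw [Set.inter_comm]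
      exact le_trans (mul_le_mul_left (min_le_left c 1) _) h2
    have h4 := ENNReal.toReal_mono (measure_ne_top μ _) h3
    rw [ENNReal.toReal_mul] at h4
    rw [measureReal_def, measureReal_def, mul_comm]
    exact h4
  have h2 := tendsto_ae_condExp (μ := μ) (ℱ := ℱ) g
  have h3 : μ[g|⨆ n, ℱ n] = g := by
    refine condExp_of_stronglyMeasurable hle ?_ hgint
    exact (stronglyMeasurable_const (b := (1 : ℝ))).indicator hG
  rw [h3] at h2
  have h4 : ∀ᵐ x ∂μ, x ∈ G := by
    filter_upwards [h2, ae_all_iff.2 h1] with x hx1 hx2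
    have h5 : c' ≤ g x := ge_of_tendsto' hx1 hx2
    by_contra hx
    rw [hg, Set.indicator_of_notMem hx] at h5
    linarith
  exact h4

end Pool.Agent.Helper86.Speed
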