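import Mathlib

/-! Task 23 (for MP_f07f0f_pr, helper97): the random walk kernel driven by port numbers (T4). -/

namespace Pool.Agent.Helper86.Speed

open MeasureTheory Filter Topology ENNReal

namespace WK

/-- Prepend a value to a sequence. -/
def cons (x : ℝ) (ω : ℕ → ℝ) : ℕ → ℝ
  | 0 => x
  | n + 1 => ω n

theorem measurable_cons : Measurable (fun z : ℝ × (ℕ → ℝ) => cons z.1 z.2) := by
  refine measurable_pi_iff.2 (fun n => ?_)
  rcases n with _ | n
  · exact measurable_fst
  · exact (measurable_pi_apply n).comp measurable_snd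

/-- The uniform law on `[0,1)`. -/
noncomputable def U : Measure ℝ := volume.restrict (Set.Ico (0 : ℝ) 1)

instance : IsProbabilityMeasure U := ⟨by
  rw [U, Measure.restrict_apply MeasurableSet.univ, Set.univ_inter, Real.volume_Ico]
  simp⟩

/-- The law of an i.i.d. sequence of uniform variables. -/
noncomputable def P : Measure (ℕ → ℝ) := Measure.infinitePi (fun _ => U)

instance : IsProbabilityMeasure P := by
  unfold P; infer_instance

theorem map_cons : (U.prod P).map (fun z : ℝ × (ℕ → ℝ) => cons z.1 z.2) = P := by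
  classical
  refine Measure.eq_infinitePi _ (fun s t ht => ?_)
  -- extend the index set to a range
  obtain ⟨N, hN⟩ : ∃ N, s ⊆ Finset.range (N + 1) := by
    refine ⟨s.sup id, fun i hi => ?_⟩
    rw [Finset.mem_range]
    have := Finset.le_sup (f := id) hi
    simp only [id] at this
    omega
  set t' : ℕ → Set ℝ := fun i => if i ∈ s then t i else Set.univ with ht'
  have ht'm : ∀ i, MeasurableSet (t' i) := fun i => by
    simp only [ht']
    split_ifs
    · exact ht i
    · exact MeasurableSet.univ
  have e1 : Set.pi (s : Set ℕ) t = Set.pi (Finset.range (N + 1) : Set ℕ) t' := by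
    ext ω
    simp only [Set.mem_pi, Finset.mem_coe, ht']
    constructor
    · intro h i _
      split_ifs with hi
      · exact h i hi
      · exact Set.mem_univ _
    · intro h i hi
      have := h i (hN hi)
      rwa [if_pos hi] at this
  have e2 : ∏ i ∈ s, U (t i) = ∏ i ∈ Finset.range (N + 1), U (t' i) := by
    rw [← Finset.prod_subset hN (f := fun i => U (t' i))]
    · refine Finset.prod_congr rfl (fun i hi => ?_)
      simp only [ht', if_pos hi]
    · intro i _ hi
      simp only [ht', if_neg hi]
      exact measure_univ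
  rw [e1, e2, Measure.map_apply measurable_cons
    (MeasurableSet.pi (Finset.countable_toSet _) (fun i _ => ht'm i))]
  have e3 : (fun z : ℝ × (ℕ → ℝ) => cons z.1 z.2) ⁻¹'
      (Set.pi (Finset.range (N + 1) : Set ℕ) t') =
      (t' 0) ×ˢ (Set.pi (Finset.range N : Set ℕ) (fun i => t' (i + 1))) := by
    ext ⟨x, ω⟩
    simp only [Set.mem_preimage, Set.mem_pi, Finset.mem_coe, Finset.mem_range, Set.mem_prod]
    constructor
    · intro h
      exact ⟨h 0 (by omega), fun i hi => h (i + 1) (by omega)⟩
    · rintro ⟨h0, h1⟩ i hi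
      rcases i with _ | i
      · exact h0
      · exact h1 i (by omega)
  rw [e3, Measure.prod_prod, Finset.prod_range_succ', mul_comm]
  congr 1
  exact Measure.infinitePi_pi _ (fun i _ => ht'm (i + 1))

/-- The port chosen by a uniform variable. -/
noncomputable def port (d : ℕ) (x : ℝ) : ℕ := ⌊x * d⌋₊

theorem measurable_port (d : ℕ) : Measurable (port d) :=
  Nat.measurable_floor.comp (measurable_id.mul_const _)

theorem U_port (d i : ℕ) (hd : 0 < d) :
    U {x | port d x = i} = if i < d then ((d : ℝ≥0∞))⁻¹ else 0 := by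
  have hd' : (0 : ℝ) < d := by exact_mod_cast hd
  have hm : MeasurableSet {x | port d x = i} :=
    (measurable_port d) (MeasurableSet.singleton i)
  rw [U, Measure.restrict_apply hm]
  split_ifs with hi
  · have e : {x | port d x = i} ∩ Set.Ico (0 : ℝ) 1 =
        Set.Ico ((i : ℝ) / d) (((i : ℝ) + 1) / d) := by
      ext x
      simp only [Set.mem_inter_iff, Set.mem_ofPred_eq, Set.mem_Ico, port]
      constructor
      · rintro ⟨h1, h2, h3⟩
        rw [Nat.floor_eq_iff (mul_nonneg h2 hd'.le)] at h1
        rw [div_le_iff₀ hd', lt_div_iff₀ hd']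
        exact h1
      · rintro ⟨h1, h2⟩
        have h0 : 0 ≤ x := le_trans (by positivity) h1
        rw [div_le_iff₀ hd'] at h1
        rw [lt_div_iff₀ hd'] at h2
        have hi' : (i : ℝ) + 1 ≤ d := by exact_mod_cast hi
        refine ⟨?_, h0, ?_⟩
        · rw [Nat.floor_eq_iff (mul_nonneg h0 hd'.le)]
          exact ⟨h1, h2⟩
        · by_contra h3
          push Not at h3
          nlinarith
    rw [e, Real.volume_Ico]
    have e2 : ((i : ℝ) + 1) / d - (i : ℝ) / d = (d : ℝ)⁻¹ := by
      field_simp
      ring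
    rw [e2, ENNReal.ofReal_inv_of_pos hd', ENNReal.ofReal_natCast]
  · have e : {x | port d x = i} ∩ Set.Ico (0 : ℝ) 1 = ∅ := by
      ext x
      simp only [Set.mem_inter_iff, Set.mem_ofPred_eq, Set.mem_Ico, port, Set.mem_empty_iff_false,
        iff_false, not_and, not_lt]
      intro h1 h2
      rw [Nat.floor_eq_iff (mul_nonneg h2 hd'.le)] at h1
      by_contra h3
      push Not at h3
      have hi' : (d : ℝ) ≤ i := by exact_mod_cast (not_lt.1 hi)
      nlinarith [h1.1]
    rw [e, measure_empty]

variable {H : Type*} (deg : H → ℕ → ℕ) (move : H → ℕ → ℕ → ℕ)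

/-- The state of the walk. -/
noncomputable def st (h : H) (r : ℕ) (ω : ℕ → ℝ) : ℕ → ℕ
  | 0 => r
  | n + 1 => move h (st h r ω n) (port (deg h (st h r ω n)) (ω n))

/-- The action of the walk at a time. -/
noncomputable def act (h : H) (r : ℕ) (ω : ℕ → ℝ) (n : ℕ) : ℕ :=
  port (deg h (st deg move h r ω n)) (ω n)

theorem st_cons (h : H) (r : ℕ) (x : ℝ) (ω : ℕ → ℝ) (n : ℕ) :
    st deg move h r (cons x ω) (n + 1) =
      st deg move h (move h r (port (deg h r) x)) ω n := by
  induction n with
  | zero => rfl
  | succ n ih =>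
    rw [st, ih, st]
    rfl

theorem act_cons_zero (h : H) (r : ℕ) (x : ℝ) (ω : ℕ → ℝ) :
    act deg move h r (cons x ω) 0 = port (deg h r) x := rfl

theorem act_cons_succ (h : H) (r : ℕ) (x : ℝ) (ω : ℕ → ℝ) (n : ℕ) :
    act deg move h r (cons x ω) (n + 1) =
      act deg move h (move h r (port (deg h r) x)) ω n := by
  rw [act, st_cons, act]
  rfl

variable [MeasurableSpace H]

theorem measurable_deg (hdeg : ∀ r, Measurable (fun h => deg h r)) :
    Measurable (fun z : H × ℕ => deg z.1 z.2) :=
  measurable_from_prod_countable_left hdeg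

theorem measurable_move (hmove : ∀ r i, Measurable (fun h => move h r i)) :
    Measurable (fun z : H × (ℕ × ℕ) => move z.1 z.2.1 z.2.2) :=
  measurable_from_prod_countable_left (f := fun z : H × (ℕ × ℕ) => move z.1 z.2.1 z.2.2)
    (fun y => hmove y.1 y.2)

theorem measurable_port' : Measurable (fun z : ℝ × ℕ => port z.2 z.1) :=
  measurable_from_prod_countable_left (f := fun z : ℝ × ℕ => port z.2 z.1)
    (fun y => measurable_port y)

theorem measurable_st (hdeg : ∀ r, Measurable (fun h => deg h r))
    (hmove : ∀ r i, Measurable (fun h => move h r i)) (n : ℕ) :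
    Measurable (fun z : (H × ℕ) × (ℕ → ℝ) => st deg move z.1.1 z.1.2 z.2 n) := by
  induction n with
  | zero => exact measurable_snd.comp measurable_fst
  | succ n ih =>
    have hh : Measurable (fun z : (H × ℕ) × (ℕ → ℝ) => z.1.1) :=
      measurable_fst.comp measurable_fst
    have h1 : Measurable (fun z : (H × ℕ) × (ℕ → ℝ) =>
        deg z.1.1 (st deg move z.1.1 z.1.2 z.2 n)) :=
      (measurable_deg deg hdeg).comp (hh.prodMk ih)
    have h2 : Measurable (fun z : (H × ℕ) × (ℕ → ℝ) => z.2 n) :=
      (measurable_pi_apply n).comp measurable_snd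
    have h3 : Measurable (fun z : (H × ℕ) × (ℕ → ℝ) =>
        port (deg z.1.1 (st deg move z.1.1 z.1.2 z.2 n)) (z.2 n)) :=
      measurable_port'.comp (h2.prodMk h1)
    exact (measurable_move move hmove).comp (hh.prodMk (ih.prodMk h3))

theorem measurable_act (hdeg : ∀ r, Measurable (fun h => deg h r))
    (hmove : ∀ r i, Measurable (fun h => move h r i)) :
    Measurable (fun z : (H × ℕ) × (ℕ → ℝ) => act deg move z.1.1 z.1.2 z.2) := by
  refine measurable_pi_iff.2 (fun n => ?_)
  have hh : Measurable (fun z : (H × ℕ) × (ℕ → ℝ) => z.1.1) :=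
    measurable_fst.comp measurable_fst
  have h1 : Measurable (fun z : (H × ℕ) × (ℕ → ℝ) =>
      deg z.1.1 (st deg move z.1.1 z.1.2 z.2 n)) :=
    (measurable_deg deg hdeg).comp (hh.prodMk (measurable_st deg move hdeg hmove n))
  have h2 : Measurable (fun z : (H × ℕ) × (ℕ → ℝ) => z.2 n) :=
    (measurable_pi_apply n).comp measurable_snd
  exact measurable_port'.comp (h2.prodMk h1)

/-- The walk kernel. -/
noncomputable def kernel (hdeg : ∀ r, Measurable (fun h => deg h r))
    (hmove : ∀ r i, Measurable (fun h => move h r i)) :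
    ProbabilityTheory.Kernel (H × ℕ) (ℕ → ℕ) where
  toFun p := P.map (fun ω => act deg move p.1 p.2 ω)
  measurable' := by
    refine Measure.measurable_of_measurable_coe _ (fun B hB => ?_)
    have h1 : Measurable (fun z : (H × ℕ) × (ℕ → ℝ) => act deg move z.1.1 z.1.2 z.2) :=
      measurable_act deg move hdeg hmove
    have h2 : ∀ p : H × ℕ, (P.map (fun ω => act deg move p.1 p.2 ω)) B =
        P (Prod.mk p ⁻¹' ((fun z : (H × ℕ) × (ℕ → ℝ) => act deg move z.1.1 z.1.2 z.2) ⁻¹' B)) := by
      intro p
      have h3 : Measurable (fun ω => act deg move p.1 p.2 ω) :=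
        h1.comp (measurable_prodMk_left (x := p))
      rw [Measure.map_apply h3 hB]
      rfl
    simp_rw [h2]
    exact measurable_measure_prodMk_left (h1 hB)

theorem kernel_apply (hdeg : ∀ r, Measurable (fun h => deg h r))
    (hmove : ∀ r i, Measurable (fun h => move h r i)) (h : H) (r : ℕ) {B : Set (ℕ → ℕ)}
    (hB : MeasurableSet B) :
    kernel deg move hdeg hmove (h, r) B = P {ω | act deg move h r ω ∈ B} := by
  have h1 : Measurable (fun ω => act deg move h r ω) :=
    (measurable_act deg move hdeg hmove).comp (measurable_prodMk_left (x := (h, r)))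
  change (P.map (fun ω => act deg move h r ω)) B = _
  rw [Measure.map_apply h1 hB]
  rfl

end WK

/-- T4: the random walk driven by port numbers, as a kernel. -/
theorem exists_walk_kernel {H : Type*} [MeasurableSpace H] (deg : H → ℕ → ℕ)
    (move : H → ℕ → ℕ → ℕ) (hdeg : ∀ r, Measurable (fun h => deg h r))
    (hmove : ∀ r i, Measurable (fun h => move h r i)) (hpos : ∀ h r, 0 < deg h r) :
    ∃ κ : ProbabilityTheory.Kernel (H × ℕ) (ℕ → ℕ), ProbabilityTheory.IsMarkovKernel κ ∧
      ∀ h r i (B : Set (ℕ → ℕ)), MeasurableSet B →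
        κ (h, r) {a | a 0 = i ∧ (fun n => a (n + 1)) ∈ B} =
          if i < deg h r then ((deg h r : ℝ≥0∞))⁻¹ * κ (h, move h r i) B else 0 := by
  refine ⟨WK.kernel deg move hdeg hmove, ⟨fun p => ⟨?_⟩⟩, ?_⟩
  · obtain ⟨h, r⟩ := p
    rw [WK.kernel_apply deg move hdeg hmove h r MeasurableSet.univ]
    simp
  · intro h r i B hB
    have hshift : Measurable (fun a : ℕ → ℕ => fun n => a (n + 1)) :=
      measurable_pi_iff.2 (fun n => measurable_pi_apply (n + 1))
    have h0 : Measurable (fun a : ℕ → ℕ => a 0) := measurable_pi_apply 0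
    have hset : MeasurableSet {a : ℕ → ℕ | a 0 = i ∧ (fun n => a (n + 1)) ∈ B} :=
      MeasurableSet.inter (h0 (MeasurableSet.singleton i)) (hshift hB)
    rw [WK.kernel_apply deg move hdeg hmove h r hset,
      WK.kernel_apply deg move hdeg hmove h (move h r i) hB]
    have h1 : Measurable (fun ω => WK.act deg move h r ω) :=
      (WK.measurable_act deg move hdeg hmove).comp (measurable_prodMk_left (x := (h, r)))
    have hset2 : MeasurableSet {ω : ℕ → ℝ | WK.act deg move h r ω ∈
        {a : ℕ → ℕ | a 0 = i ∧ (fun n => a (n + 1)) ∈ B}} := h1 hset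
    have e : (fun z : ℝ × (ℕ → ℝ) => WK.cons z.1 z.2) ⁻¹' {ω : ℕ → ℝ | WK.act deg move h r ω ∈
        {a : ℕ → ℕ | a 0 = i ∧ (fun n => a (n + 1)) ∈ B}} =
        {x | WK.port (deg h r) x = i} ×ˢ {ω | WK.act deg move h (move h r i) ω ∈ B} := by
      ext ⟨x, ω⟩
      simp only [Set.mem_preimage, Set.mem_ofPred_eq, Set.mem_prod, WK.act_cons_zero]
      constructor
      · rintro ⟨h1, h2⟩
        refine ⟨h1, ?_⟩
        have e1 : (fun n => WK.act deg move h r (WK.cons x ω) (n + 1)) =
            WK.act deg move h (move h r i) ω := by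
          funext n
          rw [WK.act_cons_succ, h1]
        rwa [e1] at h2
      · rintro ⟨h1, h2⟩
        refine ⟨h1, ?_⟩
        have e1 : (fun n => WK.act deg move h r (WK.cons x ω) (n + 1)) =
            WK.act deg move h (move h r i) ω := by
          funext n
          rw [WK.act_cons_succ, h1]
        rwa [e1]
    have key : WK.P {ω : ℕ → ℝ | WK.act deg move h r ω ∈
        {a : ℕ → ℕ | a 0 = i ∧ (fun n => a (n + 1)) ∈ B}} =
        WK.U {x | WK.port (deg h r) x = i} *
          WK.P {ω | WK.act deg move h (move h r i) ω ∈ B} := by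
      conv_lhs => rw [← WK.map_cons]
      rw [Measure.map_apply WK.measurable_cons hset2, e, Measure.prod_prod]
    rw [key, WK.U_port _ _ (hpos h r)]
    split_ifs
    · rfl
    · rw [zero_mul]

end Pool.Agent.Helper86.Speed
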