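import Pool.Agent.Helper97.Speed.WalkDefs
import Pool.Agent.Helper86.Speed.WalkKernel

/-! # The law of the ports (task 39, U1) -/

namespace Pool.Agent.Helper97.Speed

open MeasureTheory Filter Topology ENNReal

open Pool.Agent.Helper86.Speed (WK.port WK.P WK.U WK.cons WK.map_cons WK.measurable_cons
  WK.U_port WK.measurable_port WK.measurable_port')

namespace Ports

open Pool.Agent.Helper86.Speed

/-- the ports driven by uniform variables -/
noncomputable def drv : ℕ → (List ℕ → ℕ) → (ℕ → ℝ) → ℕ
  | 0, D, ω => WK.port (D []) (ω 0)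
  | n + 1, D, ω => drv n (fun v => D (WK.port (D []) (ω 0) :: v)) (fun k => ω (k + 1))

lemma measurable_step : Measurable (fun z : (List ℕ → ℕ) × (ℕ → ℝ) =>
    WK.port (z.1 []) (z.2 0)) := by
  have h1 : Measurable (fun z : (List ℕ → ℕ) × (ℕ → ℝ) => ((z.2 0, z.1 []) : ℝ × ℕ)) :=
    ((measurable_pi_apply 0).comp measurable_snd).prodMk
      ((measurable_pi_apply []).comp measurable_fst)
  exact WK.measurable_port'.comp h1

lemma measurable_next : Measurable (fun z : (List ℕ → ℕ) × (ℕ → ℝ) =>
    ((fun v => z.1 (WK.port (z.1 []) (z.2 0) :: v), fun k => z.2 (k + 1)) :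
      (List ℕ → ℕ) × (ℕ → ℝ))) := by
  refine Measurable.prodMk (measurable_pi_iff.2 fun v => ?_)
    (measurable_pi_iff.2 fun k => (measurable_pi_apply (k + 1)).comp measurable_snd)
  have h1 : Measurable (fun y : (List ℕ → ℕ) × ℕ => y.1 (y.2 :: v)) :=
    measurable_from_prod_countable_left (f := fun y : (List ℕ → ℕ) × ℕ => y.1 (y.2 :: v))
      (fun i => measurable_pi_apply (i :: v))
  exact h1.comp (measurable_fst.prodMk measurable_step)

lemma measurable_drv (n : ℕ) : Measurable (fun z : (List ℕ → ℕ) × (ℕ → ℝ) => drv n z.1 z.2) := by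
  induction n with
  | zero => exact measurable_step
  | succ n ih => exact ih.comp measurable_next

/-- the sequence of ports -/
noncomputable def seq (D : List ℕ → ℕ) (ω : ℕ → ℝ) : ℕ → ℕ := fun n => drv n D ω

lemma measurable_seq : Measurable (fun z : (List ℕ → ℕ) × (ℕ → ℝ) => seq z.1 z.2) :=
  measurable_pi_iff.2 fun n => measurable_drv n

lemma measurable_seq_right (D : List ℕ → ℕ) : Measurable (seq D) :=
  measurable_seq.comp (measurable_prodMk_left (x := D))

lemma seq_congr (D D' : List ℕ → ℕ) (ω : ℕ → ℝ) (G : Set (List ℕ))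
    (hG : ∀ v ∈ G, D v = D' v) (n : ℕ) (h : ∀ k ≤ n, pre (seq D ω) k ∈ G) :
    drv n D ω = drv n D' ω := by
  induction n generalizing D D' ω G with
  | zero =>
    have h0 : D [] = D' [] := hG [] (h 0 le_rfl)
    simp only [drv, h0]
  | succ n ih =>
    have h0 : D [] = D' [] := hG [] (h 0 (Nat.zero_le _))
    simp only [drv, ← h0]
    refine ih _ _ _ {v | WK.port (D []) (ω 0) :: v ∈ G} (fun v hv => hG _ hv) (fun k hk => ?_)
    have h1 := h (k + 1) (by omega)
    rw [pre_succ'] at h1
    have e : sh 1 (seq D ω) = seq (fun v => D (WK.port (D []) (ω 0) :: v))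
        (fun k => ω (k + 1)) := by
      funext j
      simp only [sh, seq, Nat.add_comm 1 j, drv]
    rw [e] at h1
    exact h1

lemma seq_congr_all {D D' : List ℕ → ℕ} {ω : ℕ → ℝ} {G : Set (List ℕ)}
    (hG : ∀ v ∈ G, D v = D' v) (h : ∀ k, pre (seq D ω) k ∈ G) : seq D ω = seq D' ω := by
  funext n
  exact seq_congr D D' ω G hG n fun k _ => h k

end Ports

/-- the law of the ports -/
noncomputable def ports (D : List ℕ → ℕ) : Measure (ℕ → ℕ) := WK.P.map (Ports.seq D)

theorem measurable_ports : Measurable ports := by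
  refine Measure.measurable_of_measurable_coe _ (fun B hB => ?_)
  have h2 : ∀ D : List ℕ → ℕ, ports D B =
      WK.P (Prod.mk D ⁻¹' ((fun z : (List ℕ → ℕ) × (ℕ → ℝ) => Ports.seq z.1 z.2) ⁻¹' B)) := by
    intro D
    rw [ports, Measure.map_apply (Ports.measurable_seq_right D) hB]
    rfl
  simp_rw [h2]
  exact measurable_measure_prodMk_left (Ports.measurable_seq hB)

instance isProbabilityMeasure_ports' (D : List ℕ → ℕ) : IsProbabilityMeasure (ports D) :=
  Measure.isProbabilityMeasure_map (Ports.measurable_seq_right D).aemeasurable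

theorem isProbabilityMeasure_ports {D : List ℕ → ℕ} (hD : ∀ v, 0 < D v) :
    IsProbabilityMeasure (ports D) := inferInstance

lemma measurable_sh (n : ℕ) : Measurable (sh n) :=
  measurable_pi_iff.2 fun i => measurable_pi_apply (n + i)

theorem ports_step {D : List ℕ → ℕ} (hD : 0 < D []) (i : ℕ) {B : Set (ℕ → ℕ)}
    (hB : MeasurableSet B) : ports D {a | a 0 = i ∧ sh 1 a ∈ B} =
      if i < D [] then (D [] : ℝ≥0∞)⁻¹ * ports (fun v => D (i :: v)) B else 0 := by
  have h0 : Measurable (fun a : ℕ → ℕ => a 0) := measurable_pi_apply 0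
  have hset : MeasurableSet {a : ℕ → ℕ | a 0 = i ∧ sh 1 a ∈ B} :=
    MeasurableSet.inter (h0 (MeasurableSet.singleton i)) (measurable_sh 1 hB)
  rw [ports, ports, Measure.map_apply (Ports.measurable_seq_right _) hset,
    Measure.map_apply (Ports.measurable_seq_right _) hB]
  have hset2 := Ports.measurable_seq_right D hset
  have e : (fun z : ℝ × (ℕ → ℝ) => WK.cons z.1 z.2) ⁻¹'
      (Ports.seq D ⁻¹' {a : ℕ → ℕ | a 0 = i ∧ sh 1 a ∈ B}) =
      {x | WK.port (D []) x = i} ×ˢ (Ports.seq (fun v => D (i :: v)) ⁻¹' B) := by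
    ext ⟨x, ω⟩
    have h1 : Ports.seq D (WK.cons x ω) 0 = WK.port (D []) x := rfl
    have h2 : sh 1 (Ports.seq D (WK.cons x ω)) =
        Ports.seq (fun v => D (WK.port (D []) x :: v)) ω := by
      funext j
      simp only [sh, Ports.seq, Nat.add_comm 1 j, Ports.drv]
      rfl
    simp only [Set.mem_preimage, Set.mem_ofPred_eq, Set.mem_prod, h1, h2]
    constructor
    · rintro ⟨h3, h4⟩
      refine ⟨h3, ?_⟩
      rwa [h3] at h4
    · rintro ⟨h3, h4⟩
      refine ⟨h3, ?_⟩
      rwa [h3]
  conv_lhs => rw [← WK.map_cons]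
  rw [Measure.map_apply WK.measurable_cons hset2, e, Measure.prod_prod, WK.U_port _ _ hD]
  split_ifs
  · rfl
  · rw [zero_mul]

theorem exists_ports : ∃ W : (List ℕ → ℕ) → Measure (ℕ → ℕ), Measurable W ∧
    ∀ D : List ℕ → ℕ, (∀ v, 0 < D v) → IsProbabilityMeasure (W D) ∧
      ∀ i (B : Set (ℕ → ℕ)), MeasurableSet B → W D {a | a 0 = i ∧ sh 1 a ∈ B} =
        if i < D [] then (D [] : ℝ≥0∞)⁻¹ * W (fun v => D (i :: v)) B else 0 :=
  ⟨ports, measurable_ports, fun _ hD => ⟨inferInstance, fun i _ hB => ports_step (hD []) i hB⟩⟩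

/-! ### cylinders -/

lemma measurableSet_pre (n : ℕ) (G : Set (List ℕ)) : MeasurableSet {a | pre a n ∈ G} := by
  induction n generalizing G with
  | zero =>
    have e : {a : ℕ → ℕ | pre a 0 ∈ G} = {_a | [] ∈ G} := by ext a; simp
    rw [e]
    exact MeasurableSet.const _
  | succ n ih =>
    have e : {a | pre a (n + 1) ∈ G} =
        ⋃ k : ℕ, ({a : ℕ → ℕ | a n = k} ∩ {a | pre a n ∈ {v | v ++ [k] ∈ G}}) := by
      ext a
      simp only [pre_succ, Set.mem_iUnion, Set.mem_inter_iff, Set.mem_ofPred_eq]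
      constructor
      · intro h; exact ⟨a n, rfl, h⟩
      · rintro ⟨k, rfl, h⟩; exact h
    rw [e]
    refine MeasurableSet.iUnion fun k => MeasurableSet.inter ?_ (ih _)
    have h1 : Measurable (fun a : ℕ → ℕ => a n) := measurable_pi_apply n
    exact h1 (MeasurableSet.singleton k)

lemma measurableSet_pre_eq (n : ℕ) (v : List ℕ) : MeasurableSet {a | pre a n = v} :=
  measurableSet_pre n {v}

theorem ports_markov {D : List ℕ → ℕ} (hD : ∀ v, 0 < D v) (v : List ℕ) {B : Set (ℕ → ℕ)}
    (hB : MeasurableSet B) : ports D {a | pre a v.length = v ∧ sh v.length a ∈ B} =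
      cylp D v * ports (fun w => D (v ++ w)) B := by
  induction v generalizing D with
  | nil =>
    have e : {a : ℕ → ℕ | pre a ([] : List ℕ).length = [] ∧ sh ([] : List ℕ).length a ∈ B} = B := by
      ext a; simp
    rw [e, cylp, one_mul]
    rfl
  | cons i v ih =>
    have e : {a : ℕ → ℕ | pre a (i :: v).length = i :: v ∧ sh (i :: v).length a ∈ B} =
        {a | a 0 = i ∧ sh 1 a ∈ {b | pre b v.length = v ∧ sh v.length b ∈ B}} := by
      ext a
      simp only [List.length_cons, pre_succ', Set.mem_ofPred_eq, List.cons.injEq, sh_sh,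
        Nat.add_comm 1 v.length, and_assoc]
    have hset : MeasurableSet {b : ℕ → ℕ | pre b v.length = v ∧ sh v.length b ∈ B} :=
      (measurableSet_pre_eq _ _).inter (measurable_sh _ hB)
    rw [e, ports_step (hD []) i hset, cylp]
    split_ifs
    · rw [ih fun v => hD _, mul_assoc]
      rfl
    · rw [zero_mul]

theorem ports_cyl {D : List ℕ → ℕ} (hD : ∀ v, 0 < D v) (v : List ℕ) :
    ports D {a | pre a v.length = v} = cylp D v := by
  have h := ports_markov hD v MeasurableSet.univ
  simp only [Set.mem_univ, and_true, measure_univ, mul_one] at h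
  exact h

lemma measurable_cns (i : ℕ) : Measurable (cns i) := by
  refine measurable_pi_iff.2 fun n => ?_
  rcases n with _ | n
  · exact measurable_const
  · exact measurable_pi_apply n

lemma measurable_app (v : List ℕ) : Measurable (app v) := by
  induction v with
  | nil => exact measurable_id
  | cons i v ih => exact (measurable_cns i).comp ih

lemma app_pre_sh (a : ℕ → ℕ) (n : ℕ) : app (pre a n) (sh n a) = a := by
  induction n generalizing a with
  | zero => simp [app]
  | succ n ih =>
    rw [pre_succ', app]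
    have e : sh (n + 1) a = sh n (sh 1 a) := by rw [sh_sh, Nat.add_comm]
    rw [e, ih (sh 1 a)]
    funext j
    rcases j with _ | j
    · rfl
    · simp only [cns, sh, Nat.add_comm 1 j]

lemma pre_app (v : List ℕ) (b : ℕ → ℕ) : pre (app v b) v.length = v := by
  induction v with
  | nil => rfl
  | cons i v ih =>
    rw [List.length_cons, pre_succ', app]
    have e : sh 1 (cns i (app v b)) = app v b := by
      funext j
      simp only [sh, Nat.add_comm 1 j, cns]
    rw [e, ih]
    rfl

lemma sh_app (v : List ℕ) (b : ℕ → ℕ) : sh v.length (app v b) = b := by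
  induction v with
  | nil => simp [app]
  | cons i v ih =>
    rw [List.length_cons, app]
    have e : sh 1 (cns i (app v b)) = app v b := by
      funext j
      simp only [sh, Nat.add_comm 1 j, cns]
    rw [Nat.add_comm, ← sh_sh, e, ih]

lemma ports_eq_sum {D : List ℕ → ℕ} (hD : ∀ v, 0 < D v) (n : ℕ) :
    ports D = Measure.sum (fun v : {v : List ℕ // v.length = n} =>
      cylp D v.1 • (ports (fun w => D (v.1 ++ w))).map (app v.1)) := by
  ext B hB
  rw [Measure.sum_apply _ hB]
  have h1 : B = ⋃ v : {v : List ℕ // v.length = n}, (B ∩ {a | pre a n = v.1}) := by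
    ext a
    simp only [Set.mem_iUnion, Set.mem_inter_iff, Set.mem_ofPred_eq, Subtype.exists]
    constructor
    · intro h; exact ⟨pre a n, length_pre a n, h, rfl⟩
    · rintro ⟨v, _, h, _⟩; exact h
  conv_lhs => rw [h1]
  rw [measure_iUnion]
  · refine tsum_congr fun v => ?_
    obtain ⟨v, hv⟩ := v
    subst hv
    rw [Measure.smul_apply, smul_eq_mul, Measure.map_apply (measurable_app v) hB,
      ← ports_markov hD v (measurable_app v hB)]
    congr 1
    ext a
    simp only [Set.mem_inter_iff, Set.mem_ofPred_eq, Set.mem_preimage]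
    constructor
    · rintro ⟨h2, h3⟩
      refine ⟨h3, ?_⟩
      have := app_pre_sh a v.length
      rw [h3] at this
      rwa [this]
    · rintro ⟨h2, h3⟩
      have := app_pre_sh a v.length
      rw [h2] at this
      rw [this] at h3
      exact ⟨h3, h2⟩
  · intro v w hvw
    refine Set.disjoint_left.2 fun a h2 h3 => hvw (Subtype.ext ?_)
    exact h2.2.symm.trans h3.2
  · intro v
    exact hB.inter (measurableSet_pre_eq _ _)

theorem lintegral_ports {D : List ℕ → ℕ} (hD : ∀ v, 0 < D v) (n : ℕ) {F : (ℕ → ℕ) → ℝ≥0∞}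
    (hF : Measurable F) : ∫⁻ a, F a ∂ports D = ∑' v : {v : List ℕ // v.length = n},
      cylp D v.1 * ∫⁻ b, F (app v.1 b) ∂ports (fun w => D (v.1 ++ w)) := by
  conv_lhs => rw [ports_eq_sum hD n]
  rw [lintegral_sum_measure]
  refine tsum_congr fun v => ?_
  rw [lintegral_smul_measure, lintegral_map hF (measurable_app _), smul_eq_mul]

theorem ports_congr {D D' : List ℕ → ℕ} (hD : ∀ v, 0 < D v) (hD' : ∀ v, 0 < D' v)
    (G : Set (List ℕ)) (hG : ∀ v ∈ G, D v = D' v) {B : Set (ℕ → ℕ)} (hB : MeasurableSet B) :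
    ports D (B ∩ {a | ∀ n, pre a n ∈ G}) = ports D' (B ∩ {a | ∀ n, pre a n ∈ G}) := by
  have hset : MeasurableSet (B ∩ {a | ∀ n, pre a n ∈ G}) := by
    refine hB.inter ?_
    have e : {a : ℕ → ℕ | ∀ n, pre a n ∈ G} = ⋂ n, {a | pre a n ∈ G} := by
      ext a; simp
    rw [e]
    exact MeasurableSet.iInter fun n => measurableSet_pre n G
  rw [ports, ports, Measure.map_apply (Ports.measurable_seq_right _) hset,
    Measure.map_apply (Ports.measurable_seq_right _) hset]
  congr 1
  ext ω
  simp only [Set.mem_preimage, Set.mem_inter_iff, Set.mem_ofPred_eq]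
  constructor
  · rintro ⟨h1, h2⟩
    have e := Ports.seq_congr_all hG h2
    rw [e] at h1 h2
    exact ⟨h1, h2⟩
  · rintro ⟨h1, h2⟩
    have e := Ports.seq_congr_all (D := D') (D' := D) (fun v hv => (hG v hv).symm) h2
    rw [e] at h1 h2
    exact ⟨h1, h2⟩

/-! ### simple random walk -/

lemma ext_cyl {μ ν : Measure (ℕ → ℕ)} [IsProbabilityMeasure μ] [IsProbabilityMeasure ν]
    (h : ∀ (n : ℕ) (y : ℕ → ℕ), μ {x | ∀ i ≤ n, x i = y i} = ν {x | ∀ i ≤ n, x i = y i}) :
    μ = ν := by
  classical
  set C : Set (Set (ℕ → ℕ)) := {s | ∃ (n : ℕ) (y : ℕ → ℕ), s = {x | ∀ i ≤ n, x i = y i}} with hC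
  have hpi : IsPiSystem C := by
    rintro s ⟨n, y, rfl⟩ t ⟨k, w, rfl⟩ ⟨z, hz1, hz2⟩
    refine ⟨max n k, z, ?_⟩
    ext x
    simp only [Set.mem_inter_iff, Set.mem_ofPred_eq] at hz1 hz2 ⊢
    constructor
    · rintro ⟨h1, h2⟩ i hi
      rcases le_max_iff.1 hi with hi' | hi'
      · rw [h1 i hi', hz1 i hi']
      · rw [h2 i hi', hz2 i hi']
    · intro h1
      exact ⟨fun i hi => by rw [h1 i (hi.trans (le_max_left _ _)), hz1 i hi],
        fun i hi => by rw [h1 i (hi.trans (le_max_right _ _)), hz2 i hi]⟩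
  have hcyl : ∀ (n : ℕ) (y : ℕ → ℕ), MeasurableSet {x : ℕ → ℕ | ∀ i ≤ n, x i = y i} := by
    intro n y
    have e : {x : ℕ → ℕ | ∀ i ≤ n, x i = y i} = ⋂ i : ℕ, {x | i ≤ n → x i = y i} := by
      ext x; simp
    rw [e]
    refine MeasurableSet.iInter fun i => ?_
    by_cases hi : i ≤ n
    · have e2 : {x : ℕ → ℕ | i ≤ n → x i = y i} = (fun x : ℕ → ℕ => x i) ⁻¹' {y i} := by
        ext x; simp [hi]
      rw [e2]
      exact (measurable_pi_apply i) (MeasurableSet.singleton _)
    · have e2 : {x : ℕ → ℕ | i ≤ n → x i = y i} = Set.univ := by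
        ext x; simp [hi]
      rw [e2]; exact MeasurableSet.univ
  have hgen : (MeasurableSpace.pi : MeasurableSpace (ℕ → ℕ)) = MeasurableSpace.generateFrom C := by
    refine le_antisymm ?_ (MeasurableSpace.generateFrom_le ?_)
    · have key : ∀ i k : ℕ, MeasurableSet[MeasurableSpace.generateFrom C]
          {x : ℕ → ℕ | x i = k} := by
        intro i k
        have e : {x : ℕ → ℕ | x i = k} = ⋃ (v : List ℕ) (_ : v.getD i 0 = k),
            {x : ℕ → ℕ | ∀ j ≤ i, x j = v.getD j 0} := by
          ext x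
          simp only [Set.mem_ofPred_eq, Set.mem_iUnion, exists_prop]
          constructor
          · intro hx
            refine ⟨pre x (i + 1), ?_, fun j hj => ?_⟩
            · rw [pre, List.getD_eq_getElem?_getD, List.getElem?_map,
                List.getElem?_range (by omega)]
              simpa using hx
            · rw [pre, List.getD_eq_getElem?_getD, List.getElem?_map,
                List.getElem?_range (by omega)]
              simp
          · rintro ⟨v, hv, hx⟩
            rw [hx i le_rfl, hv]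
        rw [e]
        refine MeasurableSet.iUnion fun v => MeasurableSet.iUnion fun _ => ?_
        exact MeasurableSpace.measurableSet_generateFrom ⟨i, fun j => v.getD j 0, rfl⟩
      refine iSup_le fun i => ?_
      rintro s ⟨t, _, rfl⟩
      have e : (fun x : ℕ → ℕ => x i) ⁻¹' t = ⋃ k ∈ t, {x : ℕ → ℕ | x i = k} := by
        ext x; simp
      rw [e]
      exact MeasurableSet.biUnion (Set.to_countable t) fun k _ => key i k
    · rintro s ⟨n, y, rfl⟩
      exact hcyl n y
  refine ext_of_generate_finite C hgen hpi ?_ (by simp)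
  rintro s ⟨n, y, rfl⟩
  exact h n y

lemma ports_zero {D : List ℕ → ℕ} (hD : 0 < D []) (S : Set ℕ) [DecidablePred (· ∈ S)] :
    ports D {b | b 0 ∈ S} =
      (((Finset.range (D [])).filter (· ∈ S)).card : ℝ≥0∞) / (D [] : ℝ≥0∞) := by
  have h0 : Measurable (fun a : ℕ → ℕ => a 0) := measurable_pi_apply 0
  have hS : MeasurableSet S := (Set.to_countable S).measurableSet
  have h1 : ports D {b | b 0 ∈ S} = (ports D).map (fun a => a 0) S := by
    rw [Measure.map_apply h0 hS]; rfl
  have h2 : ∀ i : ℕ, (ports D).map (fun a => a 0) {i} = if i < D [] then (D [] : ℝ≥0∞)⁻¹ else 0 := by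
    intro i
    rw [Measure.map_apply h0 (MeasurableSet.singleton i)]
    have h3 := ports_step hD i MeasurableSet.univ
    simp only [Set.mem_univ, and_true, measure_univ, mul_one] at h3
    exact h3
  rw [h1, ← Measure.tsum_indicator_apply_singleton _ _ hS]
  have h4 : ∀ i : ℕ, S.indicator (fun x => (ports D).map (fun a => a 0) {x}) i =
      if i ∈ (Finset.range (D [])).filter (· ∈ S) then (D [] : ℝ≥0∞)⁻¹ else 0 := by
    intro i
    by_cases hi : i ∈ S
    · rw [Set.indicator_of_mem hi, h2]
      simp [hi]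
    · rw [Set.indicator_of_notMem hi]
      simp [hi]
  simp_rw [h4]
  rw [tsum_eq_sum (s := (Finset.range (D [])).filter (· ∈ S))]
  · rw [Finset.sum_congr rfl (g := fun _ => (D [] : ℝ≥0∞)⁻¹), Finset.sum_const, nsmul_eq_mul]
    · rfl
    · intro i hi; rw [if_pos hi]
  · intro i hi; rw [if_neg hi]

lemma pre_take (a : ℕ → ℕ) {i n : ℕ} (h : i ≤ n) : pre a i = (pre a n).take i := by
  rw [pre, pre, ← List.map_take, List.take_range, min_eq_left h]

namespace PMap

variable {m : PMap}

open Function in
lemma IsHalfPlane.card_step (h : m.IsHalfPlane) {s : ℕ} (hs : s ∈ m.E) (y : ℕ) :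
    ((Finset.range (m.deg (m.org s))).filter (fun i => m.org (m.step s i) = y)).card =
      {d | d ∈ m.E ∧ m.org d = m.org s ∧ m.org (m.rev d) = y}.ncard := by
  classical
  obtain ⟨k, hk⟩ := h.pre.rot_period hs
  set p := minimalPeriod m.rot s with hp
  have hp0 : 0 < p := IsPeriodicPt.minimalPeriod_pos (Nat.succ_pos k) hk
  have hinj : Set.InjOn (fun i => m.rot^[i] s) (Set.Iio p) := iterate_injOn_Iio_minimalPeriod
  have hF : {d | d ∈ m.E ∧ m.org d = m.org s} =
      ((Finset.range p).image (fun i => m.rot^[i] s) : Finset ℕ) := by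
    ext d
    simp only [Set.mem_ofPred_eq, Finset.coe_image, Finset.coe_range, Set.mem_image, Set.mem_Iio]
    constructor
    · rintro ⟨h1, h2⟩
      obtain ⟨n, hn⟩ := h.exists_rot hs h1 h2.symm
      refine ⟨n % p, Nat.mod_lt _ hp0, ?_⟩
      rw [hp, iterate_mod_minimalPeriod_eq]; exact hn
    · rintro ⟨i, _, rfl⟩
      exact h.pre.rot_iter_maps (x := m.org s) ⟨hs, rfl⟩ i
  have hdeg : m.deg (m.org s) = p := by
    rw [deg, hF, Set.ncard_coe_finset, Finset.card_image_of_injOn, Finset.card_range]
    rwa [Finset.coe_range]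
  have hG : {d | d ∈ m.E ∧ m.org d = m.org s ∧ m.org (m.rev d) = y} =
      (((Finset.range p).filter (fun i => m.org (m.step s i) = y)).image
        (fun i => m.rot^[i] s) : Finset ℕ) := by
    ext d
    simp only [Set.mem_ofPred_eq, Finset.coe_image, Finset.coe_filter, Finset.mem_range,
      Set.mem_image]
    constructor
    · rintro ⟨h1, h2, h3⟩
      have h4 : d ∈ ((Finset.range p).image (fun i => m.rot^[i] s) : Finset ℕ) := by
        have : d ∈ {d | d ∈ m.E ∧ m.org d = m.org s} := ⟨h1, h2⟩
        rw [hF] at this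
        exact_mod_cast this
      rw [Finset.mem_image] at h4
      obtain ⟨i, hi, rfl⟩ := h4
      exact ⟨i, ⟨Finset.mem_range.1 hi, h3⟩, rfl⟩
    · rintro ⟨i, ⟨_, hi⟩, rfl⟩
      have := h.pre.rot_iter_maps (x := m.org s) ⟨hs, rfl⟩ i
      exact ⟨this.1, this.2, hi⟩
  rw [hdeg, hG, Set.ncard_coe_finset, Finset.card_image_of_injOn]
  intro i hi j hj hij
  rw [Finset.coe_filter, Set.mem_ofPred_eq, Finset.mem_range] at hi hj
  exact hinj hi.1 hj.1 hij

end PMap

open PMap in
theorem measurable_pos (m : PMap) (r : ℕ) : Measurable (fun a => m.pos r a) := by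
  refine measurable_pi_iff.2 fun n => measurable_to_countable' fun k => ?_
  have e : (fun a => m.pos r a n) ⁻¹' {k} = {a | pre a n ∈ {v | m.org (m.dart r v) = k}} := by
    ext a
    simp only [Set.mem_preimage, Set.mem_singleton_iff, Set.mem_ofPred_eq, pos, run_eq]
  rw [e]
  exact measurableSet_pre n _

open PMap in
theorem srw_map {m : PMap} (h : m.IsHalfPlane) (μ : Measure (ℕ → ℕ)) [IsProbabilityMeasure μ]
    (hμ : IsSRW m (m.org (m.bd 0)) μ) :
    μ = (ports (m.dg (m.bd 0))).map (fun a => m.pos (m.bd 0) a) := by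
  classical
  set r := m.bd 0 with hr
  have hrE : r ∈ m.E := mem_E_of_mem (h.bd_mem 0)
  set D := m.dg r with hDdef
  have hD : ∀ v, 0 < D v := h.pre.dg_pos hrE
  have hmp := measurable_pos m r
  have : IsProbabilityMeasure ((ports D).map (fun a => m.pos r a)) :=
    Measure.isProbabilityMeasure_map hmp.aemeasurable
  -- measurability of cylinders
  have hcyl : ∀ (n : ℕ) (y : ℕ → ℕ), MeasurableSet {x : ℕ → ℕ | ∀ i ≤ n, x i = y i} := by
    intro n y
    have e : {x : ℕ → ℕ | ∀ i ≤ n, x i = y i} = {x | pre x (n + 1) = pre y (n + 1)} := by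
      ext x
      simp only [Set.mem_ofPred_eq, pre_eq_iff]
      constructor
      · intro h1 i hi; exact h1 i (by omega)
      · intro h1 i hi; exact h1 i (by omega)
    rw [e]
    exact measurableSet_pre_eq _ _
  -- the path along a word
  set Pv : (n : ℕ) → (ℕ → ℕ) → List ℕ → Prop := fun n y v =>
    ∀ i ≤ n, m.org (m.dart r (v.take i)) = y i with hPv
  have hpos : ∀ (v : List ℕ) (b : ℕ → ℕ) (i : ℕ), i ≤ v.length →
      m.pos r (app v b) i = m.org (m.dart r (v.take i)) := by
    intro v b i hi
    rw [pos, run_eq, pre_take _ hi, pre_app]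
  have hpos1 : ∀ (v : List ℕ) (b : ℕ → ℕ),
      m.pos r (app v b) (v.length + 1) = m.org (m.step (m.dart r v) (b 0)) := by
    intro v b
    rw [pos, run, run_eq, pre_app]
    have : app v b v.length = b 0 := by
      have h1 := sh_app v b
      have h2 := congrFun h1 0
      simpa [sh] using h2
    rw [this]
  -- value at level n
  have hval : ∀ (n : ℕ) (y : ℕ → ℕ), (ports D).map (fun a => m.pos r a)
      {x | ∀ i ≤ n, x i = y i} = ∑' v : {v : List ℕ // v.length = n},
        cylp D v.1 * (if Pv n y v.1 then 1 else 0) := by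
    intro n y
    rw [Measure.map_apply hmp (hcyl n y), ports_eq_sum hD n, Measure.sum_apply _ (hmp (hcyl n y))]
    refine tsum_congr fun v => ?_
    obtain ⟨v, hv⟩ := v
    rw [Measure.smul_apply, smul_eq_mul, Measure.map_apply (measurable_app v) (hmp (hcyl n y))]
    congr 1
    have e : app v ⁻¹' ((fun a => m.pos r a) ⁻¹' {x | ∀ i ≤ n, x i = y i}) = {_b | Pv n y v} := by
      ext b
      simp only [Set.mem_preimage, Set.mem_ofPred_eq, hPv]
      constructor
      · intro h1 i hi
        rw [← h1 i hi, hpos v b i (by omega)]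
      · intro h1 i hi
        rw [← h1 i hi, hpos v b i (by omega)]
    rw [e]
    by_cases h1 : Pv n y v
    · simp [h1]
    · simp [h1]
  have hval1 : ∀ (n : ℕ) (y : ℕ → ℕ), (ports D).map (fun a => m.pos r a)
      {x | ∀ i ≤ n + 1, x i = y i} = (ports D).map (fun a => m.pos r a)
      {x | ∀ i ≤ n, x i = y i} *
      (({d | d ∈ m.E ∧ m.org d = y n ∧ m.org (m.rev d) = y (n + 1)}.ncard : ENNReal) /
        (m.deg (y n) : ENNReal)) := by
    intro n y
    rw [hval n y, ← ENNReal.tsum_mul_right, Measure.map_apply hmp (hcyl (n + 1) y),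
      ports_eq_sum hD n, Measure.sum_apply _ (hmp (hcyl (n + 1) y))]
    refine tsum_congr fun v => ?_
    obtain ⟨v, hv⟩ := v
    rw [Measure.smul_apply, smul_eq_mul,
      Measure.map_apply (measurable_app v) (hmp (hcyl (n + 1) y)), mul_assoc]
    congr 1
    by_cases h1 : Pv n y v
    · rw [if_pos h1, one_mul]
      have hsE : m.dart r v ∈ m.E := h.pre.dart_mem hrE v
      have hys : m.org (m.dart r v) = y n := by
        have := h1 n le_rfl
        rwa [List.take_of_length_le (by omega)] at this
      have e : app v ⁻¹' ((fun a => m.pos r a) ⁻¹' {x | ∀ i ≤ n + 1, x i = y i}) =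
          {b | b 0 ∈ {i | m.org (m.step (m.dart r v) i) = y (n + 1)}} := by
        ext b
        simp only [Set.mem_preimage, Set.mem_ofPred_eq]
        constructor
        · intro h2
          have h3 := h2 (n + 1) le_rfl
          rw [← hv, hpos1] at h3
          rw [h3, hv]
        · intro h2 i hi
          rcases Nat.lt_or_ge i (n + 1) with hi' | hi'
          · rw [hpos v b i (by omega)]
            exact h1 i (by omega)
          · have : i = v.length + 1 := by omega
            rw [this, hpos1, h2, hv]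
      have hDv : D (v ++ []) = m.deg (y n) := by
        simp only [List.append_nil, hDdef, dg, hys]
      rw [e, ports_zero (D := fun w => D (v ++ w)) (hD _)
        {i | m.org (m.step (m.dart r v) i) = y (n + 1)}, hDv]
      congr 2
      rw [← hys]
      exact h.card_step hsE (y (n + 1))
    · rw [if_neg h1, zero_mul]
      have e : app v ⁻¹' ((fun a => m.pos r a) ⁻¹' {x | ∀ i ≤ n + 1, x i = y i}) = ∅ := by
        ext b
        simp only [Set.mem_preimage, Set.mem_ofPred_eq, Set.mem_empty_iff_false, iff_false]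
        intro h2
        refine h1 fun i hi => ?_
        rw [← h2 i (by omega), hpos v b i (by omega)]
      rw [e, measure_empty]
  refine ext_cyl fun n y => ?_
  induction n with
  | zero =>
    have e : {x : ℕ → ℕ | ∀ i ≤ 0, x i = y i} = {x | x 0 = y 0} := by
      ext x; simp
    have e2 : (fun a => m.pos r a) ⁻¹' {x | x 0 = y 0} = {_a | m.org r = y 0} := by
      ext a; simp [pos, run]
    have hm0 : ∀ k : ℕ, MeasurableSet {x : ℕ → ℕ | x 0 = k} := fun k => by
      have h5 : Measurable (fun x : ℕ → ℕ => x 0) := measurable_pi_apply 0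
      exact h5 (MeasurableSet.singleton k)
    rw [e, Measure.map_apply hmp (hm0 _), e2]
    by_cases h1 : m.org r = y 0
    · rw [← h1, hμ.start]; simp
    · have h2 : {_a : ℕ → ℕ | m.org r = y 0} = ∅ := by ext a; simp [h1]
      rw [h2, measure_empty]
      have h3 := hμ.start
      rw [← prob_compl_eq_zero_iff (hm0 _)] at h3
      refine measure_mono_null ?_ h3
      intro x hx hx'
      exact h1 (hx'.symm.trans hx)
  | succ n ih =>
    rw [hμ.step n y, ih, hval1 n y]

end Pool.Agent.Helper97.Speed
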